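import Pool.Agent.H441R4.EH.Least2
import Pool.Agent.H441R4.EH.Tot

/-!
The mean value of the least prime `p(c, m)` over the reduced residue classes `c` modulo `m`, for
almost all moduli `m`.
-/

set_option autoImplicit false

namespace Pool.Agent.Results.MP_e1dc24_nt.MeanValueAlmostAllModuli

open Finset

/-- `p(c, m)`: the least prime `p ≡ c (mod m)` -/
noncomputable def leastPrime (c m : ℕ) : ℕ := sInf {p : ℕ | p.Prime ∧ p ≡ c [MOD m]}

/-- the residues `0 ≤ c < m` coprime to `m` -/
def classes (m : ℕ) : Finset ℕ := (range m).filter (fun c => c.Coprime m)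

/-- **The mean value of the least prime in a progression, for almost all moduli.** For every `A > 0`
there are `B` and `C` such that for all `M ≥ 2`, for all `m` with `M < m ≤ 2M` outside a set `S` of
at most `C M / (log M)^A` moduli, the mean value of `p(c, m)` over the `φ(m)` reduced classes `c`
is at most `m (log m)^B`. -/
theorem result (A : ℝ) (hA : 0 < A) : ∃ B C : ℝ, ∀ M : ℕ, 2 ≤ M →
    ∃ S : Finset ℕ, (S.card : ℝ) ≤ C * (M / Real.log M ^ A) ∧
      ∀ m ∈ Ioc M (2 * M), m ∉ S →
        (∑ c ∈ classes m, (leastPrime c m : ℝ)) / (Nat.totient m : ℝ) ≤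
          (m : ℝ) * Real.log m ^ B := by
  obtain ⟨B, C, hB, hC, h⟩ := Pool.Agent.H441R4.EH.uniform A hA
  refine ⟨2 * B + 7, C, fun M hM => ?_⟩
  obtain ⟨S, hS, hS2⟩ := h M hM
  refine ⟨S, hS, fun m hm hmS => ?_⟩
  obtain ⟨hL, hlate⟩ := hS2 m hm hmS
  have hcount : ∀ N : ℕ, 1 ≤ N →
      (((classes m).filter (fun c => N < leastPrime c m)).card : ℝ) ≤
        (m : ℝ) ^ 2 * Real.log m ^ B / N := by
    intro N hN
    refine le_trans ?_ (hlate N hN)
    have hsub : (classes m).filter (fun c => N < leastPrime c m) ⊆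
        Pool.Agent.H441R4.EH.late N m := by
      intro c hc
      unfold classes at hc
      rw [mem_filter, mem_filter, mem_range] at hc
      rw [Pool.Agent.H441R4.EH.mem_late]
      refine ⟨hc.1.1, hc.1.2, fun p k hp hpk => ?_⟩
      refine lt_of_lt_of_le hc.2 (Nat.sInf_le ⟨hp, ?_⟩)
      rw [hpk]
      exact (Nat.modEq_iff_dvd' (Nat.le_add_right _ _)).2 (by
        rw [Nat.add_sub_cancel_left]; exact Nat.dvd_mul_left _ _) |>.symm
    exact_mod_cast card_le_card hsub
  have hcard : ((classes m).card : ℝ) ≤ m := by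
    have : (classes m).card ≤ m := by
      unfold classes
      refine (card_filter_le _ _).trans ?_
      rw [card_range]
    exact_mod_cast this
  have hmain := Pool.Agent.H441R4.EH.mean_of_counts B hB.le m hL (classes m) hcard
    (fun c => leastPrime c m) hcount
  rw [mem_Ioc] at hm
  have hm1 : 1 ≤ m := by omega
  have hφ : (0 : ℝ) < (Nat.totient m : ℝ) := by exact_mod_cast Nat.totient_pos.mpr (by omega)
  have hmr : (0 : ℝ) < m := by exact_mod_cast (by omega : 0 < m)
  have hlow := Pool.Agent.H441R4.EH.tot_lower m hm1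
  have hL0 : 0 < Real.log m := by linarith
  rw [div_le_iff₀ hφ]
  refine hmain.trans ?_
  calc (m : ℝ) ^ 2 * Real.log m ^ (2 * B + 4) = m * Real.log m ^ (2 * B + 4) * m := by ring
    _ ≤ m * Real.log m ^ (2 * B + 4) * (2 * (1 + Real.log m) * (Nat.totient m : ℝ)) := by gcongr
    _ ≤ m * Real.log m ^ (2 * B + 4) * (Real.log m ^ 3 * (Nat.totient m : ℝ)) := by
        gcongr
        have h1 : 2 * (1 + Real.log m) ≤ 3 * Real.log m := by linarith
        have h2 : (3 : ℝ) ≤ Real.log m ^ 2 := by nlinarith
        calc 2 * (1 + Real.log m) ≤ 3 * Real.log m := h1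
          _ ≤ Real.log m ^ 2 * Real.log m := by gcongr
          _ = Real.log m ^ 3 := by ring
    _ = m * Real.log m ^ (2 * B + 7) * (Nat.totient m : ℝ) := by
        have : Real.log m ^ (2 * B + 7) = Real.log m ^ (2 * B + 4) * Real.log m ^ 3 := by
          rw [← Real.rpow_natCast (Real.log m) 3, ← Real.rpow_add hL0]
          congr 1
          push_cast
          ring
        rw [this]
        ring

end Pool.Agent.Results.MP_e1dc24_nt.MeanValueAlmostAllModuli
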